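import Pool.Agent.H8Z.BTE.Defs

set_option autoImplicit false

/-! # Aperiodicity modulo six -/

namespace Pool.Agent.H325Z.BTE

open Pool.Agent.H910Z.TE FreeGroup Polynomial

section words

variable {α : Type} [DecidableEq α]

lemma norm_pow_succ' (g : FreeGroup α) (k : ℕ) :
    (g ^ (k + 1)).norm = 2 * (reduceCyclically.conjugator g.toWord).length +
      (k + 1) * (reduceCyclically g.toWord).length := by
  unfold FreeGroup.norm
  rw [FreeGroup.toWord_pow,
    reduceCyclically.reduce_flatten_replicate_succ FreeGroup.isReduced_toWord k]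
  simp only [List.length_append, FreeGroup.invRev_length, List.length_flatten, List.map_replicate,
    List.sum_replicate, smul_eq_mul]
  ring

lemma tau_eq_len' (g : FreeGroup α) : tau g = (reduceCyclically g.toWord).length := by
  have h1 := norm_pow_succ' g 0
  have h2 := norm_pow_succ' g 1
  rw [zero_add, pow_one] at h1
  rw [show (1 + 1 : ℕ) = 2 from rfl, pow_two] at h2
  unfold tau
  rw [h1, h2]
  push_cast
  ring

lemma conj_red (g : FreeGroup α) :
    ∃ h : FreeGroup α, g = h * FreeGroup.mk (reduceCyclically g.toWord) * h⁻¹ := by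
  refine ⟨FreeGroup.mk (reduceCyclically.conjugator g.toWord), ?_⟩
  rw [FreeGroup.inv_mk, FreeGroup.mul_mk, FreeGroup.mul_mk,
    reduceCyclically.conj_conjugator_reduceCyclically, FreeGroup.mk_toWord]

end words

section mats

variable {K : Type} [CommRing K]

/-- a matrix of rank one -/
def E (c d : K) : Matrix (Fin 2) (Fin 2) K := !![-d, 1; -(c * d), c]

lemma E_mul (c d c' d' : K) : E c d * E c' d' = (c' - d) • E c d' := by
  ext i j
  fin_cases i <;> fin_cases j <;> simp [E, Matrix.mul_apply, Fin.sum_univ_two] <;> ring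

lemma E_trace (c d : K) : (E c d).trace = c - d := by
  simp [E, Matrix.trace, Fin.sum_univ_two]
  ring

lemma E_sq (c : K) : E c c * E c c = 0 := by rw [E_mul, sub_self, zero_smul]

/-- an elementary factor -/
noncomputable def el (N : Matrix (Fin 2) (Fin 2) K) : (Matrix (Fin 2) (Fin 2) K)[X] :=
  1 + C N * X

lemma el_gen {R : Type} [Ring R] (N : R) (h : N * N = 0) :
    ((1 + C N * X) * (1 + C (-N) * X) : R[X]) = 1 := by
  have h1 : (C N * X * (C N * X) : R[X]) = 0 := by
    rw [mul_assoc, ← mul_assoc X, X_mul_C, ← mul_assoc, ← mul_assoc, ← C_mul, h]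
    simp
  rw [C_neg, neg_mul, add_mul, mul_add, mul_add, one_mul, mul_one, one_mul, mul_neg, h1]
  abel

lemma el_mul_neg (N : Matrix (Fin 2) (Fin 2) K) (h : N * N = 0) : el N * el (-N) = 1 :=
  el_gen N h

lemma el_neg_mul (N : Matrix (Fin 2) (Fin 2) K) (h : N * N = 0) : el (-N) * el N = 1 := by
  have := el_mul_neg (-N) (by simpa using h)
  rwa [neg_neg] at this

lemma el_natDegree (N : Matrix (Fin 2) (Fin 2) K) : (el N).natDegree ≤ 1 := by
  unfold el
  refine (natDegree_add_le _ _).trans (max_le (by simp) ?_)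
  exact (natDegree_C_mul_le _ _).trans natDegree_X_le

lemma el_coeff_one (N : Matrix (Fin 2) (Fin 2) K) : (el N).coeff 1 = N := by
  simp [el, coeff_one]

lemma el_coeff_zero (N : Matrix (Fin 2) (Fin 2) K) : (el N).coeff 0 = 1 := by
  simp [el]

variable {α : Type}

/-- the matrix of a letter -/
noncomputable def ML (c : α × Bool → K) (l : α × Bool) : (Matrix (Fin 2) (Fin 2) K)[X] :=
  match l with
  | (x, true) => el (E (c (x, true)) (c (x, true))) * el (E (c (x, false)) (c (x, false)))
  | (x, false) => el (-E (c (x, false)) (c (x, false))) * el (-E (c (x, true)) (c (x, true)))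

lemma ML_natDegree (c : α × Bool → K) (l : α × Bool) : (ML c l).natDegree ≤ 2 := by
  obtain ⟨x, b⟩ := l
  cases b <;> exact natDegree_mul_le.trans (add_le_add (el_natDegree _) (el_natDegree _))

lemma ML_coeff_two (c : α × Bool → K) (l : α × Bool) :
    (ML c l).coeff 2 = (c (l.1, !l.2) - c l) • E (c l) (c (l.1, !l.2)) := by
  obtain ⟨x, b⟩ := l
  cases b
  · have := coeff_mul_add_eq_of_natDegree_le (el_natDegree (-E (c (x, false)) (c (x, false))))
      (el_natDegree (-E (c (x, true)) (c (x, true))))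
    rw [el_coeff_one, el_coeff_one, neg_mul_neg, E_mul] at this
    exact this
  · have := coeff_mul_add_eq_of_natDegree_le (el_natDegree (E (c (x, true)) (c (x, true))))
      (el_natDegree (E (c (x, false)) (c (x, false))))
    rw [el_coeff_one, el_coeff_one, E_mul] at this
    exact this

lemma ML_coeff_zero (c : α × Bool → K) (l : α × Bool) : (ML c l).coeff 0 = 1 := by
  obtain ⟨x, b⟩ := l
  cases b <;> simp [ML, mul_coeff_zero, el_coeff_zero]

/-- the unit of a generator -/
noncomputable def UG (c : α × Bool → K) (x : α) : ((Matrix (Fin 2) (Fin 2) K)[X])ˣ where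
  val := ML c (x, true)
  inv := ML c (x, false)
  val_inv := by
    simp only [ML]
    rw [mul_assoc, ← mul_assoc (el (E (c (x, false)) (c (x, false)))), el_mul_neg _ (E_sq _),
      one_mul, el_mul_neg _ (E_sq _)]
  inv_val := by
    simp only [ML]
    rw [mul_assoc, ← mul_assoc (el (-E (c (x, true)) (c (x, true)))), el_neg_mul _ (E_sq _),
      one_mul, el_neg_mul _ (E_sq _)]

/-- the representation -/
noncomputable def rho (c : α × Bool → K) : FreeGroup α →* (Matrix (Fin 2) (Fin 2) K)[X] :=
  (Units.coeHom _).comp (FreeGroup.lift (UG c))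

lemma rho_mk (c : α × Bool → K) (L : List (α × Bool)) :
    rho c (FreeGroup.mk L) = (L.map (ML c)).prod := by
  unfold rho
  rw [MonoidHom.comp_apply, FreeGroup.lift_mk, map_list_prod, List.map_map]
  congr 2
  funext l
  obtain ⟨x, b⟩ := l
  cases b <;> rfl

lemma prod_natDegree (c : α × Bool → K) (L : List (α × Bool)) :
    ((L.map (ML c)).prod).natDegree ≤ 2 * L.length := by
  induction L with
  | nil => simp
  | cons a L ih =>
    rw [List.map_cons, List.prod_cons, List.length_cons]
    refine natDegree_mul_le.trans ?_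
    have := ML_natDegree c a
    omega

lemma rho_coeff_zero (c : α × Bool → K) (g : FreeGroup α) : (rho c g).coeff 0 = 1 := by
  induction g using Quot.inductionOn with
  | _ L =>
    change (rho c (FreeGroup.mk L)).coeff 0 = 1
    rw [rho_mk]
    induction L with
    | nil => simp
    | cons a L ih => rw [List.map_cons, List.prod_cons, mul_coeff_zero, ML_coeff_zero, ih, one_mul]

lemma prod_top [IsDomain K] (c : α × Bool → K) (hc : Function.Injective c) (L : List (α × Bool)) :
    ∀ a, IsReduced (a :: L) → ∃ s : K, s ≠ 0 ∧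
      (((a :: L).map (ML c)).prod).coeff (2 * (a :: L).length) =
        s • E (c a) (c ((L.getLastD a).1, !(L.getLastD a).2)) := by
  have hne : ∀ a : α × Bool, c (a.1, !a.2) - c a ≠ 0 := by
    intro a h
    have := hc (sub_eq_zero.1 h)
    have h2 := congrArg Prod.snd this
    simp at h2
  induction L with
  | nil =>
    intro a _
    refine ⟨_, hne a, ?_⟩
    simpa using ML_coeff_two c a
  | cons b L ih =>
    intro a h
    rw [FreeGroup.isReduced_cons_cons] at h
    obtain ⟨s, hs, h1⟩ := ih b h.2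
    have h2 := coeff_mul_add_eq_of_natDegree_le (ML_natDegree c a) (prod_natDegree c (b :: L))
    have h3 : c b - c (a.1, !a.2) ≠ 0 := by
      intro h'
      have := hc (sub_eq_zero.1 h')
      have h4 := h.1 (by rw [this])
      rw [this] at h4
      simp at h4
    refine ⟨(c (a.1, !a.2) - c a) * s * (c b - c (a.1, !a.2)),
      mul_ne_zero (mul_ne_zero (hne a) hs) h3, ?_⟩
    rw [List.map_cons, List.prod_cons, List.length_cons (a := a),
      show 2 * ((b :: L).length + 1) = 2 + 2 * (b :: L).length by ring, h2, h1, ML_coeff_two,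
      smul_mul_smul_comm, E_mul, smul_smul, List.getLastD_cons]

lemma trace_coeff_comm (P Q : (Matrix (Fin 2) (Fin 2) K)[X]) (n : ℕ) :
    ((P * Q).coeff n).trace = ((Q * P).coeff n).trace := by
  rw [coeff_mul, coeff_mul, Matrix.trace_sum, Matrix.trace_sum,
    ← Finset.Nat.sum_antidiagonal_swap]
  refine Finset.sum_congr rfl fun x _ => ?_
  simp only [Prod.fst_swap, Prod.snd_swap]
  exact Matrix.trace_mul_comm _ _

lemma trace_conj {F : Type} [Group F] (r : F →* (Matrix (Fin 2) (Fin 2) K)[X]) {g g' : F}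
    (h : IsConj g g') (n : ℕ) : ((r g).coeff n).trace = ((r g').coeff n).trace := by
  obtain ⟨u, rfl⟩ := isConj_iff.1 h
  rw [_root_.map_mul r (u * g), trace_coeff_comm, ← _root_.map_mul, inv_mul_cancel_left]

lemma tau_of_trace [IsDomain K] [DecidableEq α] (c : α × Bool → K) (hc : Function.Injective c)
    (g g' : FreeGroup α)
    (h : ∀ n, ((rho c g).coeff n).trace = ((rho c g').coeff n).trace) : tau g = tau g' := by
  have key : ∀ g : FreeGroup α,
      (∀ n, 2 * (reduceCyclically g.toWord).length < n → ((rho c g).coeff n).trace = 0) ∧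
      (0 < (reduceCyclically g.toWord).length →
        ((rho c g).coeff (2 * (reduceCyclically g.toWord).length)).trace ≠ 0) := by
    intro g
    obtain ⟨u, hu⟩ := conj_red g
    have hcj : IsConj g (FreeGroup.mk (reduceCyclically g.toWord)) :=
      (isConj_iff.2 ⟨u, hu.symm⟩).symm
    have hcr := reduceCyclically.isCyclicallyReduced (FreeGroup.isReduced_toWord (x := g))
    generalize reduceCyclically g.toWord = L at hcj hcr
    refine ⟨fun n hn => ?_, fun hpos => ?_⟩
    · rw [trace_conj _ hcj, rho_mk,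
        coeff_eq_zero_of_natDegree_lt ((prod_natDegree c L).trans_lt hn), Matrix.trace_zero]
    · cases L with
      | nil => simp at hpos
      | cons a L =>
        obtain ⟨s, hs, h1⟩ := prod_top c hc L a hcr.1
        rw [trace_conj _ hcj, rho_mk, h1, Matrix.trace_smul, E_trace, smul_eq_mul]
        refine mul_ne_zero hs fun h' => ?_
        have h2 := hc (sub_eq_zero.1 h')
        have h3 := hcr.2 (L.getLastD a) (by
          rw [List.getLast?_cons, List.getLastD_eq_getLast?]; rfl) a rfl
          (congrArg Prod.fst h2).symm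
        have h4 := congrArg Prod.snd h2
        rw [h3] at h4
        simp at h4
  rw [tau_eq_len', tau_eq_len']
  obtain ⟨h1, h2⟩ := key g
  obtain ⟨h3, h4⟩ := key g'
  rcases lt_trichotomy (reduceCyclically g.toWord).length (reduceCyclically g'.toWord).length
    with hl | hl | hl
  · exact absurd ((h _).symm.trans (h1 _ (by omega))) (h4 (by omega))
  · rw [hl]
  · exact absurd ((h _).trans (h3 _ (by omega))) (h2 (by omega))

end mats

section key

variable {α : Type} [Fintype α] [DecidableEq α]

lemma hom_inv (a : MulAut (FreeGroup α))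
    (ha : ∀ (χ : FreeGroup α →* Multiplicative (ZMod 6)) (g : FreeGroup α), χ (a g) = χ g)
    {A : Type} [AddCommGroup A] (hA : ∀ x : A, 6 • x = 0)
    (χ : FreeGroup α →* Multiplicative A) (g : FreeGroup α) : χ (a g) = χ g := by
  let _ : Module (ZMod 6) A := AddCommGroup.zmodModule hA
  let e : α → FreeGroup α →* Multiplicative (ZMod 6) := fun x =>
    FreeGroup.lift fun y => Multiplicative.ofAdd (if y = x then 1 else 0)
  let χ' : FreeGroup α →* Multiplicative A :=
    { toFun := fun g => Multiplicative.ofAdd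
        (∑ x, (e x g).toAdd • (χ (FreeGroup.of x)).toAdd)
      map_one' := by simp
      map_mul' := fun g h => by
        simp only [_root_.map_mul, toAdd_mul, add_smul, Finset.sum_add_distrib, ofAdd_add] }
  have h1 : χ = χ' := by
    refine FreeGroup.ext_hom _ _ fun y => ?_
    have h0 : (∑ x, (e x (FreeGroup.of y)).toAdd • (χ (FreeGroup.of x)).toAdd) =
        (χ (FreeGroup.of y)).toAdd := by
      rw [Finset.sum_eq_single y]
      · simp [e]
      · intro x _ hx
        simp [e, hx.symm]
      · simp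
    change _ = Multiplicative.ofAdd
      (∑ x, (e x (FreeGroup.of y)).toAdd • (χ (FreeGroup.of x)).toAdd)
    rw [h0]
    rfl
  rw [h1]
  simp only [χ', MonoidHom.coe_mk, OneHom.coe_mk, ha]

variable {R : Type} [Ring R]

/-- agreement of the low coefficients -/
def Low (r : FreeGroup α →* R[X]) (a : MulAut (FreeGroup α)) (j q : ℕ) : Prop :=
  ∀ g, ∀ n < j, (r ((a ^ q) g)).coeff n = (r g).coeff n

omit [Fintype α] [DecidableEq α] in
lemma Low.mul {r : FreeGroup α →* R[X]} {a : MulAut (FreeGroup α)} {j q : ℕ} (h : Low r a j q)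
    (m : ℕ) : Low r a j (q * m) := by
  induction m with
  | zero => intro g n _; simp
  | succ m ih =>
    intro g n hn
    rw [Nat.mul_succ, pow_add, MulAut.mul_apply, ih _ n hn, h g n hn]

lemma Low.step (r : FreeGroup α →* R[X]) (hr : ∀ g, (r g).coeff 0 = 1)
    (a : MulAut (FreeGroup α))
    (ha : ∀ (χ : FreeGroup α →* Multiplicative (ZMod 6)) (g : FreeGroup α), χ (a g) = χ g)
    (p : ℕ) (hp : ∀ x : R, p • x = 0) (h6 : ∀ x : R, 6 • x = 0) {j q : ℕ} (hj : 0 < j)
    (h : Low r a j q) : Low r a (j + 1) (q * p) := by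
  have hS : ∀ g, ∃ S : R[X], r ((a ^ q) g) = r g + X ^ j * S := by
    intro g
    have : X ^ j ∣ r ((a ^ q) g) - r g := X_pow_dvd_iff.2 fun n hn => by
      rw [coeff_sub, h g n hn, sub_self]
    obtain ⟨S, hS⟩ := this
    exact ⟨S, by rw [← hS]; abel⟩
  choose S hS using hS
  have hc : ∀ g, (r ((a ^ q) g)).coeff j - (r g).coeff j = (S g).coeff 0 := by
    intro g
    have := coeff_X_pow_mul (S g) j 0
    rw [zero_add] at this
    rw [hS, coeff_add, this]
    abel
  let χ : FreeGroup α →* Multiplicative R := MonoidHom.mk'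
    (fun g => Multiplicative.ofAdd ((r ((a ^ q) g)).coeff j - (r g).coeff j)) (by
      intro g g'
      rw [← ofAdd_add, hc g, hc g']
      congr 1
      have e : r ((a ^ q) (g * g')) =
          r (g * g') + X ^ j * (S g * r g' + r g * S g' + X ^ j * (S g * S g')) := by
        rw [_root_.map_mul, _root_.map_mul, _root_.map_mul, hS, hS]
        have c1 : r g * (X ^ j * S g') = X ^ j * (r g * S g') := by
          rw [← mul_assoc, ← X_pow_mul, mul_assoc]
        have c2 : X ^ j * S g * (X ^ j * S g') = X ^ j * (X ^ j * (S g * S g')) := by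
          rw [mul_assoc, ← mul_assoc (S g), ← X_pow_mul, mul_assoc]
        rw [add_mul, mul_add, mul_add, c1, c2, mul_add, mul_add, mul_assoc]
        abel
      have := coeff_X_pow_mul (S g * r g' + r g * S g' + X ^ j * (S g * S g')) j 0
      rw [zero_add] at this
      rw [e, coeff_add, this, coeff_add, coeff_add, mul_coeff_zero, mul_coeff_zero,
        mul_coeff_zero, hr, hr, coeff_X_pow, if_neg hj.ne]
      simp)
  have hχ : ∀ i g, χ ((a ^ i) g) = χ g := by
    intro i
    induction i with
    | zero => intro g; simp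
    | succ i ih => intro g; rw [pow_succ', MulAut.mul_apply, hom_inv a ha h6 χ, ih]
  have hi : ∀ i g, (r ((a ^ (q * i)) g)).coeff j = (r g).coeff j + i • (χ g).toAdd := by
    intro i g
    induction i with
    | zero => simp
    | succ i ih =>
      have h1 := congrArg Multiplicative.toAdd (hχ (q * i) g)
      have h2 : (χ ((a ^ (q * i)) g)).toAdd = (r ((a ^ q) ((a ^ (q * i)) g))).coeff j -
        (r ((a ^ (q * i)) g)).coeff j := rfl
      rw [Nat.mul_succ, add_comm (q * i), pow_add, MulAut.mul_apply, succ_nsmul, ← add_assoc, ← ih,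
        ← h1, h2]
      abel
  intro g n hn
  rcases Nat.lt_succ_iff_lt_or_eq.1 hn with h1 | rfl
  · exact h.mul p g n h1
  · rw [hi, hp, add_zero]

lemma exists_low (r : FreeGroup α →* R[X]) (hr : ∀ g, (r g).coeff 0 = 1)
    (a : MulAut (FreeGroup α))
    (ha : ∀ (χ : FreeGroup α →* Multiplicative (ZMod 6)) (g : FreeGroup α), χ (a g) = χ g)
    (p : ℕ) (hp : ∀ x : R, p • x = 0) (h6 : ∀ x : R, 6 • x = 0) (N : ℕ) :
    Low r a (N + 1) (p ^ N) := by
  induction N with
  | zero =>
    intro g n hn
    have : n = 0 := by omega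
    rw [this, hr, hr]
  | succ N ih =>
    rw [pow_succ]
    exact Low.step r hr a ha p hp h6 (Nat.succ_pos N) ih

omit [Fintype α] [DecidableEq α] in
lemma conj_mul (a : MulAut (FreeGroup α)) (u : FreeGroup α) (k : ℕ) (h : IsConj ((a ^ k) u) u)
    (m : ℕ) : IsConj ((a ^ (k * m)) u) u := by
  induction m with
  | zero =>
    rw [Nat.mul_zero, pow_zero]
    exact IsConj.refl _
  | succ m ih =>
    rw [Nat.mul_succ, pow_add, MulAut.mul_apply]
    exact ((a ^ (k * m)).toMonoidHom.map_isConj h).trans ih

lemma prime_part (a : MulAut (FreeGroup α))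
    (ha : ∀ (χ : FreeGroup α →* Multiplicative (ZMod 6)) (g : FreeGroup α), χ (a g) = χ g)
    (u : FreeGroup α) (k : ℕ) (hk : 0 < k) (h : IsConj ((a ^ k) u) u) (p : ℕ) [hp : Fact p.Prime]
    (hp6 : p ∣ 6) : ∃ b : ℕ, ∀ ψ : MulAut (FreeGroup α), tau (ψ ((a ^ (p ^ b)) u)) = tau (ψ u) := by
  obtain ⟨b, k', hk', rfl⟩ := Nat.exists_eq_pow_mul_and_not_dvd hk.ne' p hp.out.ne_one
  refine ⟨b, fun ψ => ?_⟩
  obtain ⟨e, he⟩ := exists_injective_nat (α × Bool)
  let c : α × Bool → (ZMod p)[X] := fun l => Infinite.natEmbedding _ (e l)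
  have hc : Function.Injective c := (Infinite.natEmbedding _).injective.comp he
  have hpz : ∀ x : Matrix (Fin 2) (Fin 2) (ZMod p)[X], p • x = 0 := by
    intro x
    ext i j : 2
    rw [Matrix.smul_apply, nsmul_eq_mul, CharP.cast_eq_zero, zero_mul, Matrix.zero_apply]
  have h6 : ∀ x : Matrix (Fin 2) (Fin 2) (ZMod p)[X], 6 • x = 0 := by
    intro x
    obtain ⟨d, hd⟩ := hp6
    rw [hd, mul_smul, hpz]
  let r := (rho c).comp ψ.toMonoidHom
  refine tau_of_trace c hc _ _ fun n => ?_
  have hl := exists_low r (fun g => rho_coeff_zero c _) a ha p hpz h6 (n + 1)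
  have hco : Nat.Coprime k' (p ^ (n + 1)) :=
    Nat.Coprime.pow_right _ ((Nat.Prime.coprime_iff_not_dvd hp.out).2 hk').symm
  obtain ⟨m, -, hm⟩ := Nat.exists_mul_mod_eq_one_of_coprime hco
    (Nat.one_lt_pow (Nat.succ_ne_zero n) hp.out.one_lt)
  have e1 : p ^ b * k' * m = p ^ (n + 1) * (k' * m / p ^ (n + 1) * p ^ b) + p ^ b := by
    have := Nat.div_add_mod (k' * m) (p ^ (n + 1))
    rw [hm] at this
    calc p ^ b * k' * m = p ^ b * (k' * m) := by ring
      _ = p ^ b * (p ^ (n + 1) * (k' * m / p ^ (n + 1)) + 1) := by rw [this]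
      _ = _ := by ring
  have h1 := trace_conj r (conj_mul a u _ h m) n
  rw [e1, pow_add, MulAut.mul_apply, hl.mul _ _ n (by omega)] at h1
  exact h1

end key

theorem aper (α : Type) [Fintype α] [DecidableEq α] : Pool.Agent.H8Z.BTE.APs α := by
  intro a ha u k hk h
  have : Fact (Nat.Prime 2) := ⟨Nat.prime_two⟩
  have : Fact (Nat.Prime 3) := ⟨Nat.prime_three⟩
  obtain ⟨b, hb⟩ := prime_part a ha u k hk h 2 (by norm_num)
  obtain ⟨c, hc⟩ := prime_part a ha u k hk h 3 (by norm_num)
  have hmul : ∀ q : ℕ, (∀ ψ : MulAut (FreeGroup α), tau (ψ ((a ^ q) u)) = tau (ψ u)) →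
      ∀ m, ∀ ψ : MulAut (FreeGroup α), tau (ψ ((a ^ (q * m)) u)) = tau (ψ u) := by
    intro q hq m
    induction m with
    | zero => intro ψ; simp
    | succ m ih =>
      intro ψ
      have := hq (ψ * a ^ (q * m))
      rw [MulAut.mul_apply, MulAut.mul_apply, ih] at this
      rw [Nat.mul_succ, pow_add, MulAut.mul_apply, this]
  have hco : Nat.Coprime (2 ^ b) (3 ^ (c + 1)) := Nat.Coprime.pow _ _ (by norm_num)
  obtain ⟨m, -, hm⟩ := Nat.exists_mul_mod_eq_one_of_coprime hco
    (Nat.one_lt_pow (Nat.succ_ne_zero c) (by norm_num))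
  have e1 : 2 ^ b * m = 1 + 3 ^ c * (3 * (2 ^ b * m / 3 ^ (c + 1))) := by
    have := Nat.div_add_mod (2 ^ b * m) (3 ^ (c + 1))
    rw [hm] at this
    calc 2 ^ b * m = 3 ^ (c + 1) * (2 ^ b * m / 3 ^ (c + 1)) + 1 := this.symm
      _ = _ := by ring
  intro ψ
  have h1 := hmul _ hb m ψ
  have h2 := hmul _ hc (3 * (2 ^ b * m / 3 ^ (c + 1))) (ψ * a)
  rw [e1, pow_add, pow_one, MulAut.mul_apply] at h1
  rw [MulAut.mul_apply, MulAut.mul_apply] at h2
  rw [← h2, h1]

end Pool.Agent.H325Z.BTE
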